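import Mathlib
import Pool.Agent.N604.MW.WFin

/-!
# Waring–Goldbach for generic diagonal forms: `k + O(k / log k)` variables

(a) There are absolute constants `C` and `k_0` such that for all `k ≥ k_0`, all `s ≥ k + C k / log k` and almost
every `(α_1, ..., α_s) ∈ (0, ∞) ^ s`, every large integer `N` has at least `κ N ^ (s/k - 1) / (log N) ^ s`
representations `N = ⌊α_1 p_1 ^ k⌋ + ... + ⌊α_s p_s ^ k⌋` with primes `p_i`. This is the order of magnitude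
predicted by the circle method.

(b) `k` variables never suffice if the product of the coefficients is at least one, even with integers as
variables: a positive proportion of the integers is missed.

So the least number of variables is `(1 + o(1)) k` for generic diagonal forms (for instance with coefficients
in `(1, 1 + ε)`).
-/

namespace Pool.Agent.Results.MP_45c923_nt.GenericDiagonalAsymptotic

open MeasureTheory

theorem result :
    (∃ C : ℝ, 0 < C ∧ ∃ k₀ : ℕ, ∀ k s : ℕ, k₀ ≤ k → (k : ℝ) + C * k / Real.log k ≤ s →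
      ∀ᵐ α : Fin s → ℝ, (∀ i, 0 < α i) → ∃ κ : ℝ, 0 < κ ∧ ∃ N0 : ℕ, ∀ N : ℕ, N0 ≤ N →
        ∃ S : Finset (Fin s → ℕ),
          (∀ p ∈ S, (∀ i, (p i).Prime) ∧ ∑ i, ⌊α i * (p i : ℝ) ^ k⌋ = (N : ℤ)) ∧
          κ * (N : ℝ) ^ ((s : ℝ) / k - 1) / Real.log N ^ s ≤ S.card) ∧
    (∀ (k : ℕ) (α : Fin k → ℝ), 2 ≤ k → (∀ i, 0 < α i) → 1 ≤ ∏ i, α i →
      ∃ η : ℝ, 0 < η ∧ ∃ N0 : ℕ, ∀ N : ℕ, N0 ≤ N →
        ({m : ℕ | m ≤ N ∧ ∃ n : Fin k → ℕ, ∑ i, ⌊α i * (n i : ℝ) ^ k⌋ = (m : ℤ)}.ncard : ℝ) ≤ (1 - η) * N) := by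
  constructor
  · obtain ⟨C, hC, k0, _, h⟩ := Pool.Agent.N604.MW.wgen_all
    exact ⟨C, hC, k0, h⟩
  · intro k α hk hα hprod
    obtain ⟨d, rfl⟩ : ∃ d, k = d + 1 := ⟨k - 1, by omega⟩
    obtain ⟨η, hη, N0, hN⟩ := Pool.Agent.N400.KVSharp.sharp2 d α (fun _ => 0) (fun _ _ => 0) (by omega) hα hprod
    refine ⟨η, hη, N0, fun N hN0 => ?_⟩
    have hfin : {m : ℕ | m ≤ N ∧ ∃ n : Fin (d + 1) → ℕ, ∑ i, ⌊α i * (n i : ℝ) ^ (d + 1)⌋ = (m : ℤ)}.Finite :=
      (Set.finite_Iic N).subset fun m hm => hm.1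
    rw [Set.ncard_eq_toFinset_card _ hfin]
    refine hN N hN0 _ fun m hm => ?_
    rw [Set.Finite.mem_toFinset] at hm
    obtain ⟨hm1, n, hn⟩ := hm
    refine ⟨hm1, n, ?_⟩
    rw [← hn]
    simp [Pool.Agent.N604.MW.PP]

end Pool.Agent.Results.MP_45c923_nt.GenericDiagonalAsymptotic
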