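import Mathlib
import Pool.Agent.N604.MW.PFin

/-!
# Waring's problem for generic polynomials: exactly `k + 1` summands for almost all integers

For every `k ≥ 2`, every fixed leading coefficient `c > 0` and almost every choice of the lower
coefficients `θ` (Lebesgue measure on `ℝ ^ (k - 1)`), for all constant terms `b`, with
`P x = c x ^ k + θ_{k-2} x ^ (k-1) + ... + θ_0 x + b`: all but `N ^ (1 - σ)` integers up to `N` are sums
of `k + 1` integer parts `⌊P p⌋` with primes `p`; and if `c ≥ 1` then `k` summands `⌊P n⌋` with positive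
integers `n` represent at most three quarters of the integers up to `N`.
-/

namespace Pool.Agent.Results.MP_45c923_nt.GenericExact

open MeasureTheory

/-- the real polynomial `c x ^ k + θ_{k-2} x ^ (k-1) + ... + θ_0 x + b` -/
noncomputable def poly (k : ℕ) (c b : ℝ) (θ : Fin (k - 1) → ℝ) (x : ℝ) : ℝ :=
  c * x ^ k + ∑ j : Fin (k - 1), θ j * x ^ ((j : ℕ) + 1) + b

/-- `m` is a sum of `s` integer parts of values of `P` at positive integers -/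
def IsSum (P : ℝ → ℝ) (s m : ℕ) : Prop := ∃ n : Fin s → ℕ, (∀ i, 0 < n i) ∧ ∑ i, ⌊P (n i)⌋ = (m : ℤ)

/-- `m` is a sum of `s` integer parts of values of `P` at primes -/
def IsPrimeSum (P : ℝ → ℝ) (s m : ℕ) : Prop :=
  ∃ p : Fin s → ℕ, (∀ i, (p i).Prime) ∧ ∑ i, ⌊P (p i)⌋ = (m : ℤ)

theorem result (k : ℕ) (hk : 2 ≤ k) (c : ℝ) (hc : 0 < c) :
    ∀ᵐ θ : Fin (k - 1) → ℝ, ∀ b : ℝ,
      (∃ σ : ℝ, 0 < σ ∧ ∃ N0 : ℕ, ∀ N : ℕ, N0 ≤ N →
        ({m : ℕ | m ≤ N ∧ ¬ IsPrimeSum (poly k c b θ) (k + 1) m}.ncard : ℝ) ≤ (N : ℝ) ^ (1 - σ)) ∧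
      (1 ≤ c → ∃ N0 : ℕ, ∀ N : ℕ, N0 ≤ N →
        4 * {m : ℕ | m ≤ N ∧ IsSum (poly k c b θ) k m}.ncard ≤ 3 * N) := by
  obtain ⟨d, rfl⟩ : ∃ d, k = d + 1 := ⟨k - 1, by omega⟩
  have hd : 1 ≤ d := by omega
  have h := Pool.Agent.N604.MW.generic d c hd hc
  show ∀ᵐ θ : Fin d → ℝ, ∀ b : ℝ, _
  filter_upwards [h] with θ hθ b
  refine ⟨?_, ?_⟩
  · obtain ⟨v, C0, κ, σ, hκ, hσ, ν0, hcore⟩ := Pool.Agent.N604.MW.pcore_generic
      Pool.Agent.N604.MW.pweyl_all d c b θ hd hc hθ.1 hθ.2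
    obtain ⟨σ', hσ', N0, hN⟩ := Pool.Agent.N604.MW.ppart2 hσ hcore hd
    exact ⟨σ', hσ', N0, fun N hN0 => hN N hN0⟩
  · intro hc1
    obtain ⟨N0, hN⟩ := Pool.Agent.N530.MWSharp.sharp d c b θ hd hc1
    refine ⟨N0, fun N hN0 => ?_⟩
    have hfin : {m : ℕ | m ≤ N ∧ IsSum (poly (d + 1) c b θ) (d + 1) m}.Finite :=
      (Set.finite_Iic N).subset fun m hm => hm.1
    have h1 := hN N hN0 hfin.toFinset (by
      intro m hm
      rw [Set.Finite.mem_toFinset] at hm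
      obtain ⟨h1, n, -, h2⟩ := hm
      exact ⟨h1, n, h2⟩)
    rwa [Set.ncard_eq_toFinset_card _ hfin]

end Pool.Agent.Results.MP_45c923_nt.GenericExact
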