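import Pool.Agent.N733.TG.K
import Pool.Agent.Results.MP_45c923_nt.GenericExact

/-!
# Waring's problem for generic polynomials: ALL integers near functions of the values of multiplicative functions are sums of
`k + 1` terms

Let `k ≥ 2`, `c > 0`. For almost every choice of the lower coefficients `θ` (Lebesgue measure on `ℝ ^ (k - 1)`) and all constant
terms `b`, with `P x = c x ^ k + θ_{k-2} x ^ (k-1) + ... + θ_0 x + b`, there is `σ > 0`: let `f` be a positive multiplicative
function of at most polynomial growth such that `f p ≤ M p` for the large primes `p`, with different values at different large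
primes; for example Euler's function or the sum of the divisors. Let `G` be a function with steps bounded below by a positive
constant and growth at most `v ^ D`, and `D (1 - σ) + κ < 1`. Then for all `m ≤ N` but `N / (log N)^U`, EVERY positive integer
`n` with `|n - G (f m)| ≤ f(m)^κ` is a sum of `k + 1` integer parts `⌊P p⌋` with primes `p`.

The values of `f` are in general taken with very large multiplicities, and so this does not follow from the size of the
exceptional set.
-/

set_option autoImplicit false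

namespace Pool.Agent.Results.MP_45c923_nt.MultiplicativeValues

open MeasureTheory
open Pool.Agent.N733.TG (LM Expanding lm_totient lm_sigma keep_good_nat expanding_pow)
open GenericExact (poly IsPrimeSum)

/-- **Waring's problem for generic polynomials near the values of multiplicative functions.** For every `k ≥ 2`, `c > 0`, for
almost all `θ` and all `b` there is `σ > 0` such that, if `f` is multiplicative and positive, of at most polynomial growth,
with `f p ≤ M p` at the large primes, and injective there, `G` has steps `≥ a > 0` and growth at most `v ^ D`, `κ ≥ 0` and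
`D (1 - σ) + κ < 1`: for every `U`, all large `N` and all `m ≤ N` but `N / (log N)^U` EVERY positive integer `n` with
`|n - G (f m)| ≤ f(m)^κ` is a sum of `k + 1` integer parts of values of `c x ^ k + θ_{k-2} x ^ (k-1) + ... + θ_0 x + b` at primes.
Euler's function and the sum of the divisors are examples of `f`, and `α v ^ D`, `α > 0`, `D ≥ 1`, is an example of `G`. -/
theorem result :
    (∀ (k : ℕ) (c : ℝ), 2 ≤ k → 0 < c → ∀ᵐ θ : Fin (k - 1) → ℝ, ∀ b : ℝ, ∃ σ : ℝ, 0 < σ ∧
      ∀ f : ℕ → ℕ, LM f → ∀ (G : ℕ → ℝ) (D : ℝ), Expanding G D → ∀ κ : ℝ, 0 ≤ κ → D * (1 - σ) + κ < 1 →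
      ∀ U : ℕ, ∃ N₀ : ℕ, ∀ N : ℕ, N₀ ≤ N →
      ({m : ℕ | 1 ≤ m ∧ m ≤ N ∧ ¬ ∀ n : ℕ, 1 ≤ n → |(n : ℝ) - G (f m)| ≤ (f m : ℝ) ^ κ →
        IsPrimeSum (poly k c b θ) (k + 1) n}.ncard : ℝ) ≤ N / Real.log N ^ U) ∧
    (LM Nat.totient ∧ LM (fun m => ∑ d ∈ m.divisors, d)) ∧
    ∀ α d : ℝ, 0 < α → 1 ≤ d → Expanding (fun v => α * (v : ℝ) ^ d) d := by
  refine ⟨fun k c hk hc => ?_, ⟨lm_totient, lm_sigma⟩, fun α d hα hd => expanding_pow hα hd⟩
  filter_upwards [GenericExact.result k hk c hc] with θ hθ b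
  obtain ⟨⟨σ₀, hσ₀, N1, hN1⟩, -⟩ := hθ b
  refine ⟨min σ₀ 1, lt_min hσ₀ one_pos, fun f hf G D hG κ hκ h1 U => ?_⟩
  have hσ1 : min σ₀ 1 ≤ 1 := min_le_right _ _
  obtain ⟨N₀, hN₀⟩ := keep_good_nat (fun _ => True) (fun n => IsPrimeSum (poly k c b θ) (k + 1) n) hf hG
    (s := 1 - min σ₀ 1) (κ := κ) (by linarith) hκ h1 (fun ε hε => by
      refine ⟨(N1 : ℝ) + 1, fun X hX => ?_⟩
      have hX1 : (1 : ℝ) ≤ X := by exact_mod_cast hX
      have hp : 1 ≤ (X : ℝ) ^ (1 - min σ₀ 1 + ε) := Real.one_le_rpow hX1 (by linarith)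
      have hN1' : (0 : ℝ) ≤ N1 := Nat.cast_nonneg _
      rcases le_or_gt N1 X with h | h
      · have h2 := hN1 X h
        have hfin : {m : ℕ | m ≤ X ∧ ¬ IsPrimeSum (poly k c b θ) (k + 1) m}.Finite :=
          (Set.finite_Iic X).subset fun m hm => hm.1
        have hsub : {t : ℕ | 1 ≤ t ∧ t ≤ X ∧ True ∧ ¬ IsPrimeSum (poly k c b θ) (k + 1) t} ⊆
            {m : ℕ | m ≤ X ∧ ¬ IsPrimeSum (poly k c b θ) (k + 1) m} := by
          rintro t ⟨_, g1, _, g2⟩
          exact ⟨g1, g2⟩
        calc _ ≤ ({m : ℕ | m ≤ X ∧ ¬ IsPrimeSum (poly k c b θ) (k + 1) m}.ncard : ℝ) := by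
              exact_mod_cast Set.ncard_le_ncard hsub hfin
          _ ≤ (X : ℝ) ^ (1 - σ₀) := h2
          _ ≤ (X : ℝ) ^ (1 - min σ₀ 1 + ε) := by
              apply Real.rpow_le_rpow_of_exponent_le hX1
              have := min_le_left σ₀ 1
              linarith
          _ ≤ ((N1 : ℝ) + 1) * (X : ℝ) ^ (1 - min σ₀ 1 + ε) := by nlinarith
      · have hsub : {t : ℕ | 1 ≤ t ∧ t ≤ X ∧ True ∧ ¬ IsPrimeSum (poly k c b θ) (k + 1) t} ⊆
            ((Finset.Icc 1 X : Finset ℕ) : Set ℕ) := by
          rintro t ⟨g0, g1, _, _⟩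
          rw [Finset.mem_coe, Finset.mem_Icc]
          exact ⟨g0, g1⟩
        have h3 := Set.ncard_le_ncard hsub (Finset.finite_toSet _)
        rw [Set.ncard_coe_finset, Nat.card_Icc] at h3
        have h4 : ({t : ℕ | 1 ≤ t ∧ t ≤ X ∧ True ∧ ¬ IsPrimeSum (poly k c b θ) (k + 1) t}.ncard : ℝ) ≤ N1 := by
          have : {t : ℕ | 1 ≤ t ∧ t ≤ X ∧ True ∧ ¬ IsPrimeSum (poly k c b θ) (k + 1) t}.ncard ≤ N1 := by omega
          exact_mod_cast this
        nlinarith) U
  refine ⟨N₀, fun N hN => le_trans (le_of_eq ?_) (hN₀ N hN)⟩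
  congr 2
  ext m
  simp only [Set.mem_ofPred_eq, true_implies]

end Pool.Agent.Results.MP_45c923_nt.MultiplicativeValues
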